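import Pool.Agent.W798.KF.Stm

/-!
# KF: the third moment of the numbers of solutions of `z x = y`
-/

set_option autoImplicit false

open Finset
open scoped Pointwise

namespace Pool.Agent.W762.KF

open Pool.Agent.W798.SP Pool.Agent.W798.KF

theorem tTM (hST : S_ST2) : S_TM := by
  intro A H Y Z hH hZ hZc
  rcases A.eq_empty_or_nonempty with hA | hA
  · subst hA
    have h0 : Z = ∅ := by
      rw [← Finset.card_eq_zero]
      simpa using hZc
    subst h0
    simp
  rcases Y.eq_empty_or_nonempty with hY | hY
  · subst hY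
    have h0 : Z = ∅ := by
      rw [← Finset.card_eq_zero]
      simpa using hZc
    subst h0
    simp
  have hinj : Set.InjOn (fun p : ℝ × ℝ => (p.1, -(p.1 * p.2))) ((Z ×ˢ H : Finset (ℝ × ℝ)) : Set (ℝ × ℝ)) := by
    rintro ⟨z, h⟩ hp ⟨z', h'⟩ hp' he
    simp only [Prod.mk.injEq] at he
    obtain ⟨h1, h2⟩ := he
    subst h1
    have hz : z ≠ 0 := hZ z (Finset.mem_product.1 (Finset.mem_coe.1 hp)).1
    have h3 : h = h' := mul_left_cancel₀ hz (neg_injective h2)
    rw [h3]
  have hAH : A.card ≤ (A + H).card := Finset.card_le_card_add_right hH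
  have hHA : H.card ≤ (A + H).card := Finset.card_le_card_add_left hA
  have hY1 : 1 ≤ Y.card := hY.card_pos
  have key := hST (A + H) Y ((Z ×ˢ H).image (fun p : ℝ × ℝ => (p.1, -(p.1 * p.2)))) (A + H).card
    Y.card le_rfl le_rfl ?_ ?_
  · refine le_trans ?_ key
    rw [Finset.sum_image hinj, Finset.sum_product, Finset.mul_sum]
    refine Finset.sum_le_sum fun z hz => ?_
    rw [← smul_eq_mul, ← Finset.sum_const]
    refine Finset.sum_le_sum fun h hh => ?_
    refine Nat.pow_le_pow_left ?_ 3
    refine Finset.card_le_card_of_injOn (fun x => x + h) ?_ ?_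
    · intro x hx
      simp only [Finset.coe_filter, Set.mem_ofPred_eq] at hx ⊢
      refine ⟨Finset.add_mem_add hx.1 hh, ?_⟩
      have h4 : z * (x + h) + -(z * h) = z * x := by ring
      rw [h4]
      exact hx.2
    · intro x _ y _ hxy
      exact add_right_cancel hxy
  · intro l hl
    obtain ⟨p, hp, rfl⟩ := Finset.mem_image.1 hl
    exact hZ p.1 (Finset.mem_product.1 hp).1
  · refine le_trans Finset.card_image_le ?_
    rw [Finset.card_product]
    calc Z.card * H.card ≤ (A.card * Y.card) * H.card := Nat.mul_le_mul_right _ hZc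
      _ = (A.card * H.card) * Y.card := by ring
      _ ≤ ((A + H).card * (A + H).card) * (Y.card * Y.card) :=
          Nat.mul_le_mul (Nat.mul_le_mul hAH hHA) (Nat.le_mul_of_pos_left _ hY1)
      _ = ((A + H).card * Y.card) ^ 2 := by ring

end Pool.Agent.W762.KF
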